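import Pool.Agent.TH262.UL.Ends

/-!
# Non-intersection of two self-avoiding walks on `ℤ²` given both end points
-/

set_option autoImplicit false

namespace Pool.Agent.Results.MP_8c6f77_pr.GivenEndPoints

/-- `w` is an `n`-step self-avoiding path on `ℤ²` from the origin. -/
def IsSAW (n : ℕ) (w : Fin (n + 1) → ℤ × ℤ) : Prop :=
  w 0 = (0, 0) ∧
  (∀ i : Fin n, |(w i.succ).1 - (w i.castSucc).1| + |(w i.succ).2 - (w i.castSucc).2| = 1) ∧
  Function.Injective w

/-- `a_n`, the number of `n`-step self-avoiding paths on `ℤ²` from the origin -/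
noncomputable def a (n : ℕ) : ℕ := Nat.card {w : Fin (n + 1) → ℤ × ℤ // IsSAW n w}

/-- `a_n(x)`, the number of those with `w(n) = x` -/
noncomputable def ax (n : ℕ) (x : ℤ × ℤ) : ℕ :=
  Nat.card {w : Fin (n + 1) → ℤ × ℤ // IsSAW n w ∧ w (Fin.last n) = x}

/-- `w{1,…,n} ∩ w'{0,…,m} = ∅` -/
def Disj {n m : ℕ} (w : Fin (n + 1) → ℤ × ℤ) (w' : Fin (m + 1) → ℤ × ℤ) : Prop :=
  ∀ i j, i ≠ 0 → w i ≠ w' j

/-- the number of disjoint pairs of self-avoiding paths with `n` and `m` steps and end points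
`x` and `y` -/
noncomputable def pairs (n m : ℕ) (x y : ℤ × ℤ) : ℕ :=
  Nat.card {q : (Fin (n + 1) → ℤ × ℤ) × (Fin (m + 1) → ℤ × ℤ) //
    (IsSAW n q.1 ∧ IsSAW m q.2 ∧ Disj q.1 q.2) ∧ q.1 (Fin.last n) = x ∧ q.2 (Fin.last m) = y}

/-- the number of disjoint pairs of self-avoiding paths with `n` steps -/
noncomputable def D (n : ℕ) : ℕ :=
  Nat.card {q : (Fin (n + 1) → ℤ × ℤ) × (Fin (n + 1) → ℤ × ℤ) //
    IsSAW n q.1 ∧ IsSAW n q.2 ∧ Disj q.1 q.2}

/-- `P[w, w' disjoint | w(n) = x, w'(m) = y]` for independent uniform self-avoiding paths `w`, `w'`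
with `n` and `m` steps -/
noncomputable def P (n m : ℕ) (x y : ℤ × ℤ) : ℝ := (pairs n m x y : ℝ) / (ax n x * ax m y)

/-- `P_n(w(n) = x)` -/
noncomputable def E (n : ℕ) (x : ℤ × ℤ) : ℝ := (ax n x : ℝ) / a n

/-- `P_n[w(n) = x, w'(n) = y | w, w' disjoint]` -/
noncomputable def PD (n : ℕ) (x y : ℤ × ℤ) : ℝ := (pairs n n x y : ℝ) / D n

/-- one of the two coordinate axes separates `x` and `y`: `y` lies in one of its open half planes
and `x` in the opposite closed half plane -/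
def Sep (x y : ℤ × ℤ) : Prop :=
  (0 ≤ x.2 ∧ y.2 < 0) ∨ (x.2 ≤ 0 ∧ 0 < y.2) ∨ (0 ≤ x.1 ∧ y.1 < 0) ∨ (x.1 ≤ 0 ∧ 0 < y.1)

/-- **Non-intersection given the end points.**  Let `x` and `y` be separated by a coordinate axis,
with `y` not a neighbour of the origin.
(1) For walks of lengths `n, m ≥ 2` that can reach `x` and `y`, the conditional probability of
non-intersection given both end points is at least `exp (-K ((log n)^3 + (log m)^3))`.
(2) For walks of the same length `n` the conditional law of the pair of end points given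
non-intersection and the product law agree at `(x, y)` up to a factor `exp (± K (log n)^3)`; the
upper bound, with `(log n)^2`, holds for all `x` and `y`. -/
theorem result : ∃ K : ℝ,
    (∀ n m : ℕ, 2 ≤ n → 2 ≤ m → ∀ x y : ℤ × ℤ, 0 < ax n x → 0 < ax m y → Sep x y →
      2 ≤ |y.1| + |y.2| →
      Real.exp (-(K * (Real.log n ^ 3 + Real.log m ^ 3))) ≤ P n m x y) ∧
    (∀ n : ℕ, 2 ≤ n → ∀ x y : ℤ × ℤ, Sep x y → 2 ≤ |y.1| + |y.2| →
      Real.exp (-(K * Real.log n ^ 3)) * (E n x * E n y) ≤ PD n x y) ∧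
    (∀ n : ℕ, 2 ≤ n → ∀ x y : ℤ × ℤ, PD n x y ≤ Real.exp (K * Real.log n ^ 2) * (E n x * E n y)) := by
  obtain ⟨K, hK, h⟩ := TH262.UL.ends
  obtain ⟨B, hB, hD⟩ := TH262.UL.D_ge
  have key : ∀ n m : ℕ, 2 ≤ n → 2 ≤ m → ∀ x y : ℤ × ℤ, Sep x y → 2 ≤ |y.1| + |y.2| →
      (ax n x : ℝ) * ax m y ≤ Real.exp (K * (Real.log n ^ 3 + Real.log m ^ 3)) * pairs n m x y :=
    fun n m hn hm x y hs hy => h n m hn hm x y hs hy
  have hDl : ∀ n, (D n : ℝ) ≤ (a n : ℝ) * a n := TH262.UL.D_le
  have hap : ∀ n, (0 : ℝ) < a n := TH262.UL.a_pos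
  have hDg : ∀ n : ℕ, 2 ≤ n → Real.exp (-(B * Real.log n ^ 2)) * ((a n : ℝ) * a n) ≤ D n := hD
  have hprl : ∀ n x y, pairs n n x y ≤ ax n x * ax n y := fun n x y => TH262.UL.pr_le_mul n n x y
  have hDp : ∀ n : ℕ, 2 ≤ n → (0 : ℝ) < D n := by
    intro n hn
    refine lt_of_lt_of_le ?_ (hDg n hn)
    have := hap n
    positivity
  clear h hD
  refine ⟨2 * K + B, ?_, ?_, ?_⟩
  · intro n m hn hm x y hx hy hs hy2
    have hx' : (0 : ℝ) < ax n x := by exact_mod_cast hx
    have hy' : (0 : ℝ) < ax m y := by exact_mod_cast hy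
    have h1 := key n m hn hm x y hs hy2
    have hl : 0 ≤ Real.log (n : ℝ) ^ 3 + Real.log (m : ℝ) ^ 3 :=
      add_nonneg (pow_nonneg (Real.log_natCast_nonneg n) 3) (pow_nonneg (Real.log_natCast_nonneg m) 3)
    unfold P
    rw [le_div_iff₀ (by positivity)]
    obtain ⟨L, hL⟩ : ∃ L, L = Real.log (n : ℝ) ^ 3 + Real.log (m : ℝ) ^ 3 := ⟨_, rfl⟩
    rw [← hL] at h1 hl ⊢
    have hA : (0 : ℝ) ≤ pairs n m x y := Nat.cast_nonneg _
    calc Real.exp (-((2 * K + B) * L)) * ((ax n x : ℝ) * ax m y)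
        ≤ Real.exp (-((2 * K + B) * L)) * (Real.exp (K * L) * pairs n m x y) := by gcongr
      _ = Real.exp (-((K + B) * L)) * pairs n m x y := by
          rw [← mul_assoc, ← Real.exp_add]; congr 2; ring
      _ ≤ 1 * pairs n m x y := by
          have e : Real.exp (-((K + B) * L)) ≤ 1 := by
            rw [← Real.exp_zero]
            apply Real.exp_le_exp.2
            have : 0 ≤ (K + B) * L := by positivity
            linarith
          gcongr
      _ = _ := one_mul _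
  · intro n hn x y hs hy2
    have h1 := key n n hn hn x y hs hy2
    obtain ⟨L, hL⟩ : ∃ L, L = Real.log (n : ℝ) ^ 3 := ⟨_, rfl⟩
    have hl : 0 ≤ L := by rw [hL]; exact pow_nonneg (Real.log_natCast_nonneg n) 3
    rw [← hL] at h1 ⊢
    have hA : (0 : ℝ) ≤ pairs n n x y := Nat.cast_nonneg _
    have hap' := hap n
    have hDp' := hDp n hn
    have hDl' := hDl n
    unfold PD E
    rw [le_div_iff₀ hDp']
    have e1 : (ax n x : ℝ) / a n * ((ax n y : ℝ) / a n) = ((ax n x : ℝ) * ax n y) / ((a n : ℝ) * a n) := by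
      field_simp
    rw [e1]
    calc Real.exp (-((2 * K + B) * L)) * (((ax n x : ℝ) * ax n y) / ((a n : ℝ) * a n)) * D n
        ≤ Real.exp (-((2 * K + B) * L)) * (((ax n x : ℝ) * ax n y) / ((a n : ℝ) * a n)) *
          ((a n : ℝ) * a n) := by gcongr
      _ = Real.exp (-((2 * K + B) * L)) * ((ax n x : ℝ) * ax n y) := by field_simp
      _ ≤ Real.exp (-((2 * K + B) * L)) * (Real.exp (K * (L + L)) * pairs n n x y) := by gcongr
      _ = Real.exp (-(B * L)) * pairs n n x y := by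
          rw [← mul_assoc, ← Real.exp_add]; congr 2; ring
      _ ≤ 1 * pairs n n x y := by
          have e : Real.exp (-(B * L)) ≤ 1 := by
            rw [← Real.exp_zero]
            apply Real.exp_le_exp.2
            have : 0 ≤ B * L := by positivity
            linarith
          gcongr
      _ = _ := one_mul _
  · intro n hn x y
    obtain ⟨L, hL⟩ : ∃ L, L = Real.log (n : ℝ) ^ 2 := ⟨_, rfl⟩
    have hl : 0 ≤ L := by rw [hL]; positivity
    have hDg' := hDg n hn
    rw [← hL] at hDg' ⊢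
    have hap' := hap n
    have hDp' := hDp n hn
    have h1 : (pairs n n x y : ℝ) ≤ (ax n x : ℝ) * ax n y := by exact_mod_cast hprl n x y
    unfold PD E
    rw [div_le_iff₀ hDp']
    have e1 : (ax n x : ℝ) / a n * ((ax n y : ℝ) / a n) = ((ax n x : ℝ) * ax n y) / ((a n : ℝ) * a n) := by
      field_simp
    rw [e1]
    have h2 : (0 : ℝ) ≤ (ax n x : ℝ) * ax n y := by positivity
    calc (pairs n n x y : ℝ) ≤ (ax n x : ℝ) * ax n y := h1
      _ = 1 * ((ax n x : ℝ) * ax n y) := (one_mul _).symm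
      _ ≤ Real.exp (2 * K * L) * ((ax n x : ℝ) * ax n y) := by
          have : 1 ≤ Real.exp (2 * K * L) := Real.one_le_exp (by positivity)
          gcongr
      _ = Real.exp ((2 * K + B) * L) * (((ax n x : ℝ) * ax n y) / ((a n : ℝ) * a n)) *
          (Real.exp (-(B * L)) * ((a n : ℝ) * a n)) := by
          have e2 : Real.exp (2 * K * L) = Real.exp ((2 * K + B) * L) * Real.exp (-(B * L)) := by
            rw [← Real.exp_add]; congr 1; ring
          rw [e2]
          field_simp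
      _ ≤ Real.exp ((2 * K + B) * L) * (((ax n x : ℝ) * ax n y) / ((a n : ℝ) * a n)) * D n := by
          gcongr

end Pool.Agent.Results.MP_8c6f77_pr.GivenEndPoints
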