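import Pool.Agent.TH262.UL.Inst

/-!
# Two self-avoiding walks of different lengths on the square lattice

Two independent uniform self-avoiding paths from the origin of `ℤ²` with `n` and `m` steps are
disjoint with probability `P n m`.
-/

set_option autoImplicit false

namespace Pool.Agent.Results.MP_8c6f77_pr.UnequalLengths

open Filter Topology

/-- `w` is an `n`-step self-avoiding path on `ℤ²` from the origin. -/
def IsSAW (n : ℕ) (w : Fin (n + 1) → ℤ × ℤ) : Prop :=
  w 0 = (0, 0) ∧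
  (∀ i : Fin n, |(w i.succ).1 - (w i.castSucc).1| + |(w i.succ).2 - (w i.castSucc).2| = 1) ∧
  Function.Injective w

/-- `a_n`, the number of `n`-step self-avoiding paths on `ℤ²` from the origin -/
noncomputable def a (n : ℕ) : ℕ := Nat.card {w : Fin (n + 1) → ℤ × ℤ // IsSAW n w}

/-- `w{1,…,n} ∩ w'{0,…,m} = ∅` -/
def Disj {n m : ℕ} (w : Fin (n + 1) → ℤ × ℤ) (w' : Fin (m + 1) → ℤ × ℤ) : Prop :=
  ∀ i j, i ≠ 0 → w i ≠ w' j

/-- the probability that two independent uniform self-avoiding paths with `n` and `m` steps are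
disjoint (apart from their starting point) -/
noncomputable def P (n m : ℕ) : ℝ :=
  (Nat.card {q : (Fin (n + 1) → ℤ × ℤ) × (Fin (m + 1) → ℤ × ℤ) //
    IsSAW n q.1 ∧ IsSAW m q.2 ∧ Disj q.1 q.2} : ℝ) / (a n * a m)

theorem P_eq (n m : ℕ) : P n m = TH262.UL.p TH262.UL.rr n m := TH262.UL.P_eq n m

/-- **Walks of different lengths.**
(1) For all `n, m ≥ 1` the non-intersection probability is at least `exp (-B (log (min n m + 1))²)`:
the bound involves the shorter length only.
(2) There is `μ > 0`, the limit of `a_n ^ (1/n)`, and `K` with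
`|P n m / (μ^m / a_m) - 1| ≤ K m log n / √n` for all even `m` with `m log n ≤ √n`.
(3) For every `α` and every sequence `N m → ∞` with `m log (N m) / √(N m) → 0` the following are
equivalent: `P n n = n^(-α + o(1))`; `P (N m) m = m^(-α + o(1))`; `a_n = μ^n n^(α + o(1))`. -/
theorem result :
    (∃ B : ℝ, ∀ n m : ℕ, 1 ≤ n → 1 ≤ m →
      Real.exp (-(B * Real.log (((min n m : ℕ) : ℝ) + 1) ^ 2)) ≤ P n m) ∧
    ∃ μ : ℝ, 0 < μ ∧ Tendsto (fun n : ℕ => (a n : ℝ) ^ (1 / (n : ℝ))) atTop (𝓝 μ) ∧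
      (∃ K : ℝ, ∀ n m : ℕ, 2 ≤ n → Even m → (m : ℝ) * Real.log n ≤ Real.sqrt n →
        |P n m / (μ ^ m / a m) - 1| ≤ K * ((m : ℝ) * Real.log n / Real.sqrt n)) ∧
      ∀ (α : ℝ) (N : ℕ → ℕ), Tendsto N atTop atTop →
        Tendsto (fun m : ℕ => (m : ℝ) * Real.log (N m) / Real.sqrt (N m)) atTop (𝓝 0) →
        (Tendsto (fun n : ℕ => Real.log (P n n) / Real.log n) atTop (𝓝 (-α)) ↔
          Tendsto (fun m : ℕ => Real.log (P (N m) m) / Real.log m) atTop (𝓝 (-α))) ∧
        (Tendsto (fun n : ℕ => Real.log (P n n) / Real.log n) atTop (𝓝 (-α)) ↔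
          Tendsto (fun n : ℕ => Real.log ((a n : ℝ) / μ ^ n) / Real.log n) atTop (𝓝 α)) := by
  obtain ⟨K, c, C, h⟩ := TH262.UL.hy
  refine ⟨?_, H981.mu, H981.mu_pos, ?_, ?_, ?_⟩
  · obtain ⟨B, hB, hs⟩ := h.short
    refine ⟨B, fun n m hn hm => ?_⟩
    rw [P_eq]
    rcases Nat.le_total m n with h1 | h1
    · rw [min_eq_right h1]
      exact hs n m hm h1
    · rw [min_eq_left h1]
      have := hs m n hn h1
      have e : TH262.UL.p TH262.UL.rr m n = TH262.UL.p TH262.UL.rr n m := by
        unfold TH262.UL.p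
        rw [Nat.add_comm, mul_comm]
      rwa [e] at this
  · have h := H981.tendsto_root
    simp only [H981.cr'_eq] at h
    exact h
  · refine ⟨5 * K * Real.exp (5 * K), fun n m hn hm hs => ?_⟩
    have h1 := h.near hn hm hs
    have e : P n m / (H981.mu ^ m / a m) = TH262.UL.rr (n + m) / TH262.UL.rr n := by
      rw [P_eq]
      unfold TH262.UL.p
      have e2 : H981.mu ^ m / (a m : ℝ) = 1 / TH262.UL.rr m := by
        unfold TH262.UL.rr
        rw [one_div_div]
        rfl
      have p1 := h.pos n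
      have p2 := h.pos m
      rw [e2]
      field_simp
    rw [e]
    exact h1
  · intro α N hN hs
    have h1 := h.exponents hN hs (α := α)
    have h2 := h.far_iff hN hs (α := α)
    simp only [P_eq]
    exact ⟨h1.symm, h1.symm.trans h2⟩

end Pool.Agent.Results.MP_8c6f77_pr.UnequalLengths
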